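import Mathlib

set_option autoImplicit false

/-! Words which are concatenations of few powers of short words. -/

namespace Pool.Agent.W979.HS

open Finset

variable {α : Type*}

/-- `k` copies of the word `u` -/
def pow (u : List α) : ℕ → List α
  | 0 => []
  | k + 1 => u ++ pow u k

/-- `w` is a concatenation of at most `m` powers of words of length at most `L` -/
inductive Blk (L : ℕ) : ℕ → List α → Prop
  | nil (m : ℕ) : Blk L m []
  | cons {m : ℕ} (u : List α) (k : ℕ) (w : List α) (hu : u.length ≤ L) (hw : Blk L m w) :
      Blk L (m + 1) (pow u k ++ w)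

theorem Blk.mono {L m : ℕ} {w : List α} (h : Blk L m w) :
    ∀ {L' m' : ℕ}, L ≤ L' → m ≤ m' → Blk L' m' w := by
  induction h with
  | nil m => intro L' m' _ _; exact Blk.nil _
  | cons u k w hu _ ih =>
    intro L' m' hL hm
    obtain ⟨m'', rfl⟩ : ∃ m'', m' = m'' + 1 := ⟨m' - 1, by omega⟩
    exact Blk.cons u k w (hu.trans hL) (ih hL (by omega))

theorem Blk.append {L m m' : ℕ} {w w' : List α} (h : Blk L m w) (h' : Blk L m' w') :
    Blk L (m + m') (w ++ w') := by
  induction h with
  | nil m => simpa using h'.mono le_rfl (by omega)
  | cons u k w hu _ ih =>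
    rw [List.append_assoc]
    have := Blk.cons u k _ hu ih
    exact this.mono le_rfl (by omega)

theorem Blk.powr {L : ℕ} {u : List α} (hu : u.length ≤ L) (k : ℕ) : Blk L 1 (pow u k) := by
  have := Blk.cons u k [] hu (Blk.nil (L := L) 0)
  simpa using this

theorem Blk.single {L : ℕ} {u : List α} (hu : u.length ≤ L) : Blk L 1 u := by
  have := Blk.powr hu 1
  simpa [pow] using this

theorem pow_nil (k : ℕ) : pow ([] : List α) k = [] := by
  induction k with
  | zero => rfl
  | succ k ih => simp [pow, ih]

theorem Blk.tail {L m : ℕ} {v : List α} (h : Blk L m v) : Blk L (m + 1) v.tail := by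
  induction h with
  | nil m => exact Blk.nil _
  | cons u k w hu hw ih =>
    rcases k with _ | k
    · simpa [pow] using ih.mono le_rfl (by omega)
    · rcases u with _ | ⟨a, u'⟩
      · simpa [pow_nil] using ih.mono le_rfl (by omega)
      · have h1 : (pow (a :: u') (k + 1) ++ w).tail = u' ++ (pow (a :: u') k ++ w) := by
          simp [pow]
        rw [h1]
        have h2 := Blk.single (L := L) (u := u') (by simp at hu; omega)
        have h3 := h2.append (Blk.cons (a :: u') k w hu hw)
        exact h3.mono le_rfl (by omega)

theorem pow_length (u : List α) (k : ℕ) : (pow u k).length = k * u.length := by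
  induction k with
  | zero => simp [pow]
  | succ k ih => simp [pow, ih]; ring

theorem pow_get (u : List α) (k i : ℕ) (hi : i < k * u.length) :
    (pow u k)[i]? = u[i % u.length]? := by
  induction k generalizing i with
  | zero => simp at hi
  | succ k ih =>
    have hu : 0 < u.length := by
      rcases Nat.eq_zero_or_pos u.length with h | h
      · rw [h] at hi; simp at hi
      · exact h
    rw [pow]
    rcases lt_or_ge i u.length with h | h
    · rw [List.getElem?_append_left h, Nat.mod_eq_of_lt h]
    · rw [List.getElem?_append_right h, ih (i - u.length)]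
      · congr 1
        conv_rhs => rw [Nat.mod_eq_sub_mod h]
      · have : (k + 1) * u.length = k * u.length + u.length := by ring
        omega

/-- number of the positions `i` with `w_{i+P} ≠ w_i` -/
def dfc [DecidableEq α] (P : ℕ) (w : List α) : ℕ :=
  ((range w.length).filter (fun i => i + P < w.length ∧ w[i + P]? ≠ w[i]?)).card

theorem dfc_append [DecidableEq α] (P : ℕ) (v w : List α)
    (hv : ∀ i, i + P < v.length → v[i + P]? = v[i]?) : dfc P (v ++ w) ≤ P + dfc P w := by
  unfold dfc
  have h1 : ((range (v ++ w).length).filter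
      (fun i => i + P < (v ++ w).length ∧ (v ++ w)[i + P]? ≠ (v ++ w)[i]?)) ⊆
      (Ico (v.length - P) v.length) ∪
        ((range w.length).filter (fun i => i + P < w.length ∧ w[i + P]? ≠ w[i]?)).image
          (fun i => i + v.length) := by
    intro i hi
    rw [mem_filter, mem_range] at hi
    obtain ⟨hi1, hi2, hi3⟩ := hi
    rw [List.length_append] at hi1 hi2
    rw [mem_union, mem_Ico, mem_image]
    rcases lt_or_ge i v.length with h | h
    · left
      refine ⟨?_, h⟩
      by_contra hc
      have h2 : i + P < v.length := by omega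
      rw [List.getElem?_append_left h, List.getElem?_append_left h2] at hi3
      exact hi3 (hv i h2)
    · right
      refine ⟨i - v.length, ?_, by omega⟩
      rw [mem_filter, mem_range]
      refine ⟨by omega, by omega, ?_⟩
      rw [List.getElem?_append_right h, List.getElem?_append_right (by omega)] at hi3
      rw [show i - v.length + P = i + P - v.length by omega]
      exact hi3
  refine (card_le_card h1).trans ((card_union_le _ _).trans ?_)
  refine Nat.add_le_add ?_ card_image_le
  rw [Nat.card_Ico]
  omega

theorem Blk.dfc_le [DecidableEq α] {L m P : ℕ} {w : List α} (h : Blk L m w)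
    (hP : ∀ d, 1 ≤ d → d ≤ L → d ∣ P) : dfc P w ≤ m * P := by
  induction h with
  | nil m => simp [dfc]
  | cons u k w hu _ ih =>
    refine (dfc_append P _ w ?_).trans ?_
    · intro i hi
      rw [pow_length] at hi
      rw [pow_get u k (i + P) hi, pow_get u k i (by omega)]
      congr 1
      have h0 : 1 ≤ u.length := by
        rcases Nat.eq_zero_or_pos u.length with h | h
        · rw [h] at hi; simp at hi
        · exact h
      obtain ⟨e, he⟩ := hP _ h0 hu
      rw [he]
      simp
    · have : P + dfc P w ≤ P + _ := Nat.add_le_add_left ih P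
      refine this.trans (le_of_eq ?_)
      ring

/-- concatenation of the words `g (f^[i] q)`, `i < k` -/
def cat {Q : Type*} (f : Q → Q) (g : Q → List α) : ℕ → Q → List α
  | 0, _ => []
  | k + 1, q => g q ++ cat f g k (f q)

theorem cat_add {Q : Type*} (f : Q → Q) (g : Q → List α) (a b : ℕ) (q : Q) :
    cat f g (a + b) q = cat f g a q ++ cat f g b (f^[a] q) := by
  induction a generalizing q with
  | zero => simp [cat]
  | succ a ih =>
    rw [show a + 1 + b = (a + b) + 1 by ring, cat, cat, ih, List.append_assoc,
      Function.iterate_succ_apply]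

theorem cat_length_le {Q : Type*} (f : Q → Q) (g : Q → List α) (M : ℕ)
    (hg : ∀ q, (g q).length ≤ M) (a : ℕ) (q : Q) : (cat f g a q).length ≤ a * M := by
  induction a generalizing q with
  | zero => simp [cat]
  | succ a ih =>
    rw [cat, List.length_append]
    have := ih (f q)
    have := hg q
    have e : (a + 1) * M = a * M + M := by ring
    omega

theorem cat_blk_le {Q : Type*} (f : Q → Q) (g : Q → List α) (M : ℕ)
    (hg : ∀ q, (g q).length ≤ M) (a : ℕ) (q : Q) : Blk M a (cat f g a q) := by
  induction a generalizing q with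
  | zero => exact Blk.nil _
  | succ a ih =>
    rw [cat]
    have := (Blk.single (hg q)).append (ih (f q))
    exact this.mono le_rfl (by omega)

theorem cat_period {Q : Type*} (f : Q → Q) (g : Q → List α) (p : ℕ) (q : Q)
    (hp : f^[p] q = q) (r s : ℕ) :
    cat f g (p * r + s) q = pow (cat f g p q) r ++ cat f g s q := by
  induction r with
  | zero => simp [pow]
  | succ r ih =>
    rw [show p * (r + 1) + s = p + (p * r + s) by ring, cat_add, hp, ih, pow, List.append_assoc]

theorem cat_blk {Q : Type*} [Fintype Q] (f : Q → Q) (g : Q → List α) (M : ℕ)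
    (hg : ∀ q, (g q).length ≤ M) (k : ℕ) (q : Q) :
    Blk (Fintype.card Q * M) (2 * Fintype.card Q + 1) (cat f g k q) := by
  have hc : 1 ≤ Fintype.card Q := Fintype.card_pos_iff.2 ⟨q⟩
  have hM : M ≤ Fintype.card Q * M := Nat.le_mul_of_pos_left M hc
  rcases le_or_gt k (Fintype.card Q) with hk | hk
  · exact (cat_blk_le f g M hg k q).mono hM (by omega)
  · obtain ⟨x, y, hne, hxy⟩ := Fintype.exists_ne_map_eq_of_card_lt
      (fun i : Fin (Fintype.card Q + 1) => f^[(i : ℕ)] q) (by simp)
    obtain ⟨a, b, hab, hb, hfab⟩ : ∃ a b : ℕ, a < b ∧ b ≤ Fintype.card Q ∧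
        f^[a] q = f^[b] q := by
      rcases lt_trichotomy (x : ℕ) y with h | h | h
      · exact ⟨x, y, h, by omega, hxy⟩
      · exact absurd (Fin.ext h) hne
      · exact ⟨y, x, h, by omega, hxy.symm⟩
    set p := b - a with hp
    have hpq : f^[p] (f^[a] q) = f^[a] q := by
      rw [← Function.iterate_add_apply, show p + a = b by omega, hfab]
    have e1 : k = a + (p * ((k - a) / p) + (k - a) % p) := by
      rw [Nat.div_add_mod]; omega
    rw [e1, cat_add, cat_period f g p _ hpq]
    have hlt : (k - a) % p < p := Nat.mod_lt _ (by omega)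
    have h1 := (cat_blk_le f g M hg a q).mono hM le_rfl
    have h2 : Blk (Fintype.card Q * M) 1 (pow (cat f g p (f^[a] q)) ((k - a) / p)) := by
      apply Blk.powr
      refine (cat_length_le f g M hg p _).trans ?_
      exact Nat.mul_le_mul_right M (by omega)
    have h3 := (cat_blk_le f g M hg ((k - a) % p) (f^[a] q)).mono hM le_rfl
    exact (h1.append (h2.append h3)).mono le_rfl (by omega)

end Pool.Agent.W979.HS
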