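import Mathlib
import Pool.Agent.W979.HS.Blk

set_option autoImplicit false

/-! Free runs of a machine with one pushdown store: the words which are written and the content of
the store are concatenations of few powers of short words. -/

namespace Pool.Agent.W979.HS

open Finset

/-- an action on a stack: push a symbol, replace the top symbol (if there is one), remove the top
symbol, or do nothing -/
inductive Act (Γ : Type) where
  | push (g : Γ) : Act Γ
  | swap (g : Γ) : Act Γ
  | pop : Act Γ
  | stay : Act Γ

/-- the effect of an action on the content of a stack (top symbol first) -/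
def Act.app {Γ : Type} : Act Γ → List Γ → List Γ
  | .push g, S => g :: S
  | .swap _, [] => []
  | .swap g, _ :: S => g :: S
  | .pop, S => S.tail
  | .stay, S => S

/-- a program for a machine with one stack: new state, action on the stack, written symbol -/
structure Prog (Q Γ : Type) where
  nx : Q → Option Γ → Q
  ac : Q → Option Γ → Act Γ
  ot : Q → Option Γ → Option ℕ

variable {Q Γ : Type} (M : Prog Q Γ)

def Prog.step (c : Q × List Γ) : Q × List Γ :=
  (M.nx c.1 c.2.head?, (M.ac c.1 c.2.head?).app c.2)

def Prog.run (n : ℕ) (c : Q × List Γ) : Q × List Γ := M.step^[n] c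

def Prog.outs : ℕ → Q × List Γ → List ℕ
  | 0, _ => []
  | n + 1, c => (M.ot c.1 c.2.head?).toList ++ Prog.outs n (M.step c)

theorem Prog.run_zero (c : Q × List Γ) : M.run 0 c = c := rfl

theorem Prog.run_succ (n : ℕ) (c : Q × List Γ) : M.run (n + 1) c = M.run n (M.step c) := by
  simp [Prog.run, Function.iterate_succ_apply]

theorem Prog.run_add (m n : ℕ) (c : Q × List Γ) : M.run (m + n) c = M.run n (M.run m c) := by
  simp only [Prog.run]
  rw [← Function.iterate_add_apply, Nat.add_comm]

theorem Prog.outs_add (m n : ℕ) (c : Q × List Γ) :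
    M.outs (m + n) c = M.outs m c ++ M.outs n (M.run m c) := by
  induction m generalizing c with
  | zero => simp [Prog.outs, Prog.run_zero]
  | succ m ih =>
    rw [show m + 1 + n = (m + n) + 1 by ring, Prog.outs, Prog.outs, ih, Prog.run_succ,
      List.append_assoc]

theorem Prog.outs_length (n : ℕ) (c : Q × List Γ) : (M.outs n c).length ≤ n := by
  induction n generalizing c with
  | zero => simp [Prog.outs]
  | succ n ih =>
    rw [Prog.outs, List.length_append]
    have := ih (M.step c)
    have h : ((M.ot c.1 c.2.head?).toList).length ≤ 1 := by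
      cases M.ot c.1 c.2.head? <;> simp
    omega

theorem Act.app_length_le (a : Act Γ) (S : List Γ) : (a.app S).length ≤ S.length + 1 := by
  cases a with
  | push g => simp [Act.app]
  | swap g => cases S <;> simp [Act.app]
  | pop => simp [Act.app]; omega
  | stay => simp [Act.app]

theorem Prog.run_length (n : ℕ) (c : Q × List Γ) :
    (M.run n c).2.length ≤ c.2.length + n := by
  induction n generalizing c with
  | zero => simp [Prog.run_zero]
  | succ n ih =>
    rw [Prog.run_succ]
    have h1 := ih (M.step c)
    have h2 : (M.step c).2.length ≤ c.2.length + 1 := Act.app_length_le _ _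
    omega

theorem Prog.step_local (q : Q) (Z R : List Γ) (hZ : Z ≠ []) :
    M.step (q, Z ++ R) = ((M.step (q, Z)).1, (M.step (q, Z)).2 ++ R) := by
  obtain ⟨z, Z', rfl⟩ : ∃ z Z', Z = z :: Z' := by
    cases Z with
    | nil => exact absurd rfl hZ
    | cons z Z' => exact ⟨z, Z', rfl⟩
  simp only [Prog.step, List.cons_append, List.head?_cons]
  congr 1
  cases M.ac q (some z) <;> simp [Act.app]

theorem Prog.run_local (n : ℕ) (q : Q) (Z R : List Γ)
    (h : ∀ i < n, (M.run i (q, Z)).2 ≠ []) :
    M.run n (q, Z ++ R) = ((M.run n (q, Z)).1, (M.run n (q, Z)).2 ++ R) ∧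
      M.outs n (q, Z ++ R) = M.outs n (q, Z) := by
  induction n generalizing q Z with
  | zero => exact ⟨rfl, rfl⟩
  | succ n ih =>
    have hZ : Z ≠ [] := h 0 (by omega)
    rw [Prog.run_succ, Prog.run_succ, Prog.step_local M q Z R hZ]
    have h1 := ih (M.step (q, Z)).1 (M.step (q, Z)).2 (fun i hi => by
      have := h (i + 1) (by omega)
      rwa [Prog.run_succ] at this)
    refine ⟨h1.1, ?_⟩
    rw [Prog.outs, Prog.outs, Prog.step_local M q Z R hZ, h1.2]
    congr 2
    obtain ⟨z, Z', rfl⟩ : ∃ z Z', Z = z :: Z' := by
      cases Z with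
      | nil => exact absurd rfl hZ
      | cons z Z' => exact ⟨z, Z', rfl⟩
    simp

/-- a run that comes back to its starting state relative to a pushed word -/
theorem Prog.rel_period (q : Q) (Z V : List Γ) (p : ℕ)
    (hne : ∀ i, (M.run i (q, Z)).2 ≠ []) (h : M.run p (q, Z) = (q, Z ++ V)) (k r : ℕ) :
    (M.run (p * k + r) (q, Z)).2 = (M.run r (q, Z)).2 ++ pow V k ∧
      M.outs (p * k + r) (q, Z) = pow (M.outs p (q, Z)) k ++ M.outs r (q, Z) := by
  induction k with
  | zero => simp [pow]
  | succ k ih =>
    have e : p * (k + 1) + r = p + (p * k + r) := by ring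
    rw [e, Prog.run_add, Prog.outs_add, h]
    have h2 := Prog.run_local M (p * k + r) q Z V (fun i _ => hne i)
    rw [h2.1, h2.2, ih.1, ih.2]
    refine ⟨?_, ?_⟩
    · show (M.run r (q, Z)).2 ++ pow V k ++ V = (M.run r (q, Z)).2 ++ pow V (k + 1)
      have : ∀ j, pow V j ++ V = pow V (j + 1) := by
        intro j
        induction j with
        | zero => simp [pow]
        | succ j ihj => rw [pow, List.append_assoc, ihj, ← pow, pow]
      rw [List.append_assoc, this]
    · rw [pow, List.append_assoc]

theorem exists_good (H : ℕ → ℕ) (T : ℕ) : ∃ n, T ≤ n ∧ ∀ m, n ≤ m → H n ≤ H m := by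
  obtain ⟨n, hn⟩ : ∃ n, T ≤ n ∧ ∀ m, T ≤ m → H n ≤ H m := by
    have hw : (Set.range (fun i : ℕ => H (T + i))).Nonempty := ⟨_, 0, rfl⟩
    obtain ⟨i, hi⟩ := Nat.sInf_mem hw
    refine ⟨T + i, by omega, fun m hm => ?_⟩
    have h1 : H (T + i) = sInf (Set.range (fun i : ℕ => H (T + i))) := hi
    rw [h1]
    apply Nat.sInf_le
    exact ⟨m - T, by simp only; congr 1; omega⟩
  exact ⟨n, hn.1, fun m hm => hn.2 m (hn.1.trans hm)⟩

theorem Prog.one_run [Fintype Q] [Fintype Γ] (c : Q × List Γ) :
    ∃ L C : ℕ, ∀ n, Blk L C (M.run n c).2 ∧ Blk L C (M.outs n c) := by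
  classical
  -- infinitely many good times
  have hgood : ∀ T, ∃ n, T ≤ n ∧ ∀ m, n ≤ m → (M.run n c).2.length ≤ (M.run m c).2.length :=
    fun T => exists_good (fun n => (M.run n c).2.length) T
  choose g hg1 hg2 using hgood
  -- a strictly increasing sequence of good times
  let t : ℕ → ℕ := fun k => Nat.rec (g 0) (fun _ x => g (x + 1)) k
  have ht0 : ∀ k, t (k + 1) = g (t k + 1) := fun k => rfl
  have htm : ∀ k, t k < t (k + 1) := fun k => by
    rw [ht0]; exact lt_of_lt_of_le (Nat.lt_succ_self _) (hg1 _)
  have hts : StrictMono t := strictMono_nat_of_lt_succ htm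
  have htg : ∀ k m, t k ≤ m → (M.run (t k) c).2.length ≤ (M.run m c).2.length := by
    intro k
    cases k with
    | zero => exact hg2 0
    | succ k => exact hg2 _
  obtain ⟨x, y, hne, hxy⟩ := Finite.exists_ne_map_eq_of_infinite
    (fun k : ℕ => ((M.run (t k) c).1, (M.run (t k) c).2.head?))
  obtain ⟨a, b, hab, hga, hlab⟩ : ∃ a b : ℕ, a < b ∧
      (∀ m, a ≤ m → (M.run a c).2.length ≤ (M.run m c).2.length) ∧
      ((M.run a c).1, (M.run a c).2.head?) = ((M.run b c).1, (M.run b c).2.head?) := by
    rcases lt_trichotomy x y with h | h | h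
    · exact ⟨t x, t y, hts h, htg x, hxy⟩
    · exact absurd h hne
    · exact ⟨t y, t x, hts h, htg y, hxy.symm⟩
  obtain ⟨hq, hh⟩ := Prod.mk.inj hlab
  set p := b - a with hpdef
  have hp1 : 1 ≤ p := by omega
  set L := c.2.length + a + b + 1 with hL
  refine ⟨L, 4, fun n => ?_⟩
  -- small times
  rcases lt_or_ge n a with hna | hna
  · refine ⟨(Blk.single ?_).mono le_rfl (by omega), (Blk.single ?_).mono le_rfl (by omega)⟩
    · have := M.run_length n c; omega
    · have := M.outs_length n c; omega
  obtain ⟨qa, Ya, hca⟩ : ∃ qa Ya, M.run a c = (qa, Ya) := ⟨_, _, rfl⟩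
  obtain ⟨qb, Yb, hcb⟩ : ∃ qb Yb, M.run b c = (qb, Yb) := ⟨_, _, rfl⟩
  rw [hca, hcb] at hq hh
  simp only at hq hh
  subst hq
  have hn : n = a + (p * ((n - a) / p) + (n - a) % p) := by rw [Nat.div_add_mod]; omega
  have hr : (n - a) % p < p := Nat.mod_lt _ (by omega)
  set k := (n - a) / p
  set r := (n - a) % p
  have hout_a : Blk L 1 (M.outs a c) := Blk.single (by have := M.outs_length a c; omega)
  rcases Ya with _ | ⟨z, R⟩
  · -- empty stack
    have hYb : Yb = [] := by
      cases Yb with
      | nil => rfl
      | cons z R => simp at hh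
    subst hYb
    have hper : M.run p (qa, []) = (qa, []) := by
      have h := Prog.run_add M a p c
      rw [show a + p = b by omega, hcb, hca] at h
      exact h.symm
    have hloop : ∀ k r, M.run (p * k + r) (qa, []) = M.run r (qa, []) ∧
        M.outs (p * k + r) (qa, []) = pow (M.outs p (qa, [])) k ++ M.outs r (qa, []) := by
      intro k r
      induction k with
      | zero => simp [pow]
      | succ k ih =>
        have e : p * (k + 1) + r = p + (p * k + r) := by ring
        rw [e, Prog.run_add, Prog.outs_add, hper, ih.1, ih.2]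
        exact ⟨rfl, by rw [pow, List.append_assoc]⟩
    rw [hn, Prog.run_add, Prog.outs_add, hca, (hloop k r).1, (hloop k r).2]
    constructor
    · apply Blk.mono (Blk.single ?_) le_rfl (by omega : 1 ≤ 4)
      have := M.run_length r (qa, [])
      simp only [List.length_nil] at this
      omega
    · have h2 : Blk L 1 (pow (M.outs p (qa, [])) k) :=
        Blk.powr (by have := M.outs_length p (qa, []); omega) k
      have h3 : Blk L 1 (M.outs r (qa, [])) :=
        Blk.single (by have := M.outs_length r (qa, []); omega)
      exact (hout_a.append (h2.append h3)).mono le_rfl (by omega)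
  · -- nonempty stack
    have hne : ∀ i, (M.run i (qa, [z])).2 ≠ [] := by
      intro i
      induction i using Nat.strong_induction_on with
      | _ i ih =>
        intro h0
        have h1 := (Prog.run_local M i qa [z] R ih).1
        have h2 := hga (a + i) (by omega)
        rw [Prog.run_add, hca] at h2
        simp only [List.singleton_append] at h1
        rw [h1, h0] at h2
        simp at h2
    have hRlen : R.length + 1 ≤ c.2.length + a := by
      have := M.run_length a c
      rw [hca] at this
      simpa using this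
    have hb1 := (Prog.run_local M p qa [z] R (fun i _ => hne i)).1
    have hb2 : M.run p (qa, z :: R) = (qa, Yb) := by
      have h := Prog.run_add M a p c
      rw [show a + p = b by omega, hcb, hca] at h
      exact h.symm
    simp only [List.singleton_append] at hb1
    rw [hb2] at hb1
    obtain ⟨hb3, hb4⟩ := Prod.mk.inj hb1
    obtain ⟨V, hV⟩ : ∃ V, (M.run p (qa, [z])).2 = z :: V := by
      have h3 := hne p
      cases hZ : (M.run p (qa, [z])).2 with
      | nil => exact absurd hZ h3
      | cons z' V =>
        rw [hb4, hZ] at hh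
        simp at hh
        exact ⟨V, by rw [hh]⟩
    have hper : M.run p (qa, [z]) = (qa, [z] ++ V) := by
      rw [Prod.ext_iff]
      exact ⟨hb3.symm, by simpa using hV⟩
    have hVlen : V.length ≤ p := by
      have := M.run_length p (qa, [z])
      rw [hper] at this
      simp at this
      omega
    have h1 := Prog.rel_period M qa [z] V p hne hper k r
    have h2 := Prog.run_local M (p * k + r) qa [z] R (fun i _ => hne i)
    simp only [List.singleton_append] at h2
    rw [hn, Prog.run_add, Prog.outs_add, hca, h2.1, h2.2, h1.2]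
    simp only
    rw [h1.1]
    constructor
    · have e1 : Blk L 1 (M.run r (qa, [z])).2 := Blk.single (by
        have := M.run_length r (qa, [z])
        simp only [List.length_singleton] at this
        omega)
      have e2 : Blk L 1 (pow V k) := Blk.powr (by omega) k
      have e3 : Blk L 1 R := Blk.single (by omega)
      exact ((e1.append e2).append e3).mono le_rfl (by omega)
    · have e2 : Blk L 1 (pow (M.outs p (qa, [z])) k) :=
        Blk.powr (by have := M.outs_length p (qa, [z]); omega) k
      have e3 : Blk L 1 (M.outs r (qa, [z])) :=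
        Blk.single (by have := M.outs_length r (qa, [z]); omega)
      exact (hout_a.append (e2.append e3)).mono le_rfl (by omega)

/-- uniform version for the stacks of height at most one -/
theorem Prog.uni [Fintype Q] [Fintype Γ] :
    ∃ L C : ℕ, ∀ (q : Q) (o : Option Γ) (n : ℕ),
      Blk L C (M.run n (q, o.toList)).2 ∧ Blk L C (M.outs n (q, o.toList)) := by
  classical
  have h : ∀ x : Q × Option Γ, ∃ L C : ℕ, ∀ n,
      Blk L C (M.run n (x.1, x.2.toList)).2 ∧ Blk L C (M.outs n (x.1, x.2.toList)) :=
    fun x => M.one_run _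
  choose L C hLC using h
  refine ⟨∑ x, L x, ∑ x, C x, fun q o n => ?_⟩
  have hL : L (q, o) ≤ ∑ x, L x := single_le_sum (fun _ _ => Nat.zero_le _) (mem_univ _)
  have hC : C (q, o) ≤ ∑ x, C x := single_le_sum (fun _ _ => Nat.zero_le _) (mem_univ _)
  exact ⟨(hLC (q, o) n).1.mono hL hC, (hLC (q, o) n).2.mono hL hC⟩

end Pool.Agent.W979.HS
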