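import Mathlib
import Pool.Agent.W979.HS.Run

set_option autoImplicit false

/-! Reading the content of the stack. -/

namespace Pool.Agent.W979.HS

open Finset

variable {Q Γ : Type} (M : Prog Q Γ)

def Prog.Emp (q : Q) (v : List Γ) : Prop := ∃ n, (M.run n (q, v)).2 = []

open Classical in
/-- the first time at which the stack is empty -/
noncomputable def Prog.ft (q : Q) (v : List Γ) : ℕ :=
  if h : M.Emp q v then Nat.find h else 0

theorem Prog.ft_spec {q : Q} {v : List Γ} (h : M.Emp q v) :
    (M.run (M.ft q v) (q, v)).2 = [] ∧ ∀ i < M.ft q v, (M.run i (q, v)).2 ≠ [] := by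
  classical
  unfold Prog.ft
  rw [dif_pos h]
  exact ⟨Nat.find_spec h, fun i hi => Nat.find_min h hi⟩

theorem Prog.either (q : Q) (v : List Γ) (n : ℕ) :
    (M.Emp q v ∧ M.ft q v ≤ n) ∨ (∀ i ≤ n, (M.run i (q, v)).2 ≠ []) := by
  by_cases h : M.Emp q v
  · rcases le_or_gt (M.ft q v) n with h1 | h1
    · exact Or.inl ⟨h, h1⟩
    · exact Or.inr fun i hi => (M.ft_spec h).2 i (by omega)
  · right
    intro i _ h0
    exact h ⟨i, h0⟩

/-- after the word `v` has been read -/
theorem Prog.read {q : Q} {v : List Γ} (h : M.Emp q v) (R : List Γ) (n : ℕ)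
    (hn : M.ft q v ≤ n) :
    M.run n (q, v ++ R) = M.run (n - M.ft q v) ((M.run (M.ft q v) (q, v)).1, R) ∧
    M.outs n (q, v ++ R) = M.outs (M.ft q v) (q, v) ++
      M.outs (n - M.ft q v) ((M.run (M.ft q v) (q, v)).1, R) := by
  obtain ⟨h1, h2⟩ := M.ft_spec h
  have h3 := M.run_local (M.ft q v) q v R h2
  rw [h1, List.nil_append] at h3
  have e : n = M.ft q v + (n - M.ft q v) := by omega
  constructor
  · conv_lhs => rw [e, Prog.run_add, h3.1]
  · conv_lhs => rw [e, Prog.outs_add, h3.1, h3.2]

theorem Prog.exists_ft_bound [Fintype Q] [Fintype Γ] :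
    ∃ C0 : ℕ, ∀ (q : Q) (s : Γ), M.ft q [s] ≤ C0 := by
  classical
  refine ⟨∑ x : Q × Γ, M.ft x.1 [x.2], fun q s => ?_⟩
  exact single_le_sum (f := fun x : Q × Γ => M.ft x.1 [x.2])
    (fun _ _ => Nat.zero_le _) (mem_univ (q, s))

theorem Prog.outs_len {C0 : ℕ} (hC0 : ∀ (q : Q) (s : Γ), M.ft q [s] ≤ C0) (v : List Γ) :
    ∀ (q : Q) (n : ℕ), (M.run n (q, v)).2 = [] → (∀ i < n, (M.run i (q, v)).2 ≠ []) →
      (M.outs n (q, v)).length ≤ C0 * v.length := by
  induction v with
  | nil =>
    intro q n _ h2
    have : n = 0 := by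
      by_contra hc
      exact h2 0 (by omega) rfl
    subst this
    simp [Prog.outs]
  | cons s v ih =>
    intro q n h1 h2
    have hs : M.Emp q [s] ∧ M.ft q [s] ≤ n := by
      rcases M.either q [s] n with h | h
      · exact h
      · exfalso
        have h3 := (M.run_local n q [s] v (fun i hi => h i hi.le)).1
        simp only [List.singleton_append] at h3
        rw [h3] at h1
        have h4 := h n le_rfl
        simp at h1
        exact h4 h1.1
    obtain ⟨hr1, hr2⟩ := M.read hs.1 v n hs.2
    simp only [List.singleton_append] at hr1 hr2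
    rw [hr2, List.length_append]
    have h5 := ih (M.run (M.ft q [s]) (q, [s])).1 (n - M.ft q [s]) (by rw [← hr1]; exact h1)
      (fun i hi => by
        have h6 := (M.read hs.1 v (M.ft q [s] + i) (by omega)).1
        simp only [List.singleton_append, Nat.add_sub_cancel_left] at h6
        rw [← h6]
        exact h2 _ (by omega))
    have h7 := M.outs_length (M.ft q [s]) (q, [s])
    have h8 := hC0 q s
    simp only [List.length_cons]
    rw [Nat.mul_add, Nat.mul_one]
    omega

theorem Prog.partial_read {C0 L1 C1 : ℕ} (hC0 : ∀ (q : Q) (s : Γ), M.ft q [s] ≤ C0)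
    (hu : ∀ (q : Q) (o : Option Γ) (n : ℕ),
      Blk L1 C1 (M.run n (q, o.toList)).2 ∧ Blk L1 C1 (M.outs n (q, o.toList)))
    (v : List Γ) :
    ∀ (q : Q) (n : ℕ), (∀ i ≤ n, (M.run i (q, v)).2 ≠ []) →
      ∃ Z v2 w' w'', (M.run n (q, v)).2 = Z ++ v2 ∧ M.outs n (q, v) = w' ++ w'' ∧
        Blk L1 C1 Z ∧ v2.length ≤ v.length ∧ w'.length ≤ C0 * v.length ∧ Blk L1 C1 w'' := by
  induction v with
  | nil =>
    intro q n h
    exact absurd rfl (h 0 (by omega))
  | cons s v ih =>
    intro q n h
    rcases M.either q [s] n with hs | hs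
    · obtain ⟨hr1, hr2⟩ := M.read hs.1 v n hs.2
      simp only [List.singleton_append] at hr1 hr2
      obtain ⟨Z, v2, w', w'', e1, e2, e3, e4, e5, e6⟩ :=
        ih (M.run (M.ft q [s]) (q, [s])).1 (n - M.ft q [s]) (fun i hi => by
          have h6 := (M.read hs.1 v (M.ft q [s] + i) (by omega)).1
          simp only [List.singleton_append, Nat.add_sub_cancel_left] at h6
          rw [← h6]
          exact h _ (by omega))
      refine ⟨Z, v2, M.outs (M.ft q [s]) (q, [s]) ++ w', w'', ?_, ?_, e3, ?_, ?_, e6⟩
      · rw [hr1, e1]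
      · rw [hr2, e2, List.append_assoc]
      · simp only [List.length_cons]; omega
      · have h7 := M.outs_length (M.ft q [s]) (q, [s])
        have h8 := hC0 q s
        simp only [List.length_cons, List.length_append]
        rw [Nat.mul_add, Nat.mul_one]
        omega
    · have h3 := M.run_local n q [s] v (fun i hi => hs i hi.le)
      simp only [List.singleton_append] at h3
      refine ⟨(M.run n (q, [s])).2, v, [], M.outs n (q, [s]), ?_, ?_, (hu q (some s) n).1, ?_, ?_,
        (hu q (some s) n).2⟩
      · rw [h3.1]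
      · rw [h3.2]; rfl
      · simp
      · simp

open Classical in
/-- the word written while `u` is read -/
noncomputable def Prog.gw (u : List Γ) (q : Q) : List ℕ :=
  if M.Emp q u then M.outs (M.ft q u) (q, u) else []

/-- the state after `u` has been read -/
noncomputable def Prog.fx (u : List Γ) (q : Q) : Q := (M.run (M.ft q u) (q, u)).1

theorem Prog.gw_len {C0 : ℕ} (hC0 : ∀ (q : Q) (s : Γ), M.ft q [s] ≤ C0) (u : List Γ) (q : Q) :
    (M.gw u q).length ≤ C0 * u.length := by
  unfold Prog.gw
  split_ifs with h
  · obtain ⟨h1, h2⟩ := M.ft_spec h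
    exact M.outs_len hC0 u q _ h1 h2
  · simp

theorem Prog.power_read {C0 L1 C1 : ℕ} (hC0 : ∀ (q : Q) (s : Γ), M.ft q [s] ≤ C0)
    (hu : ∀ (q : Q) (o : Option Γ) (n : ℕ),
      Blk L1 C1 (M.run n (q, o.toList)).2 ∧ Blk L1 C1 (M.outs n (q, o.toList)))
    (u : List Γ) (k : ℕ) :
    ∀ (q : Q) (n : ℕ) (R : List Γ),
      (∃ n1 ≤ n, M.run n (q, pow u k ++ R) = M.run (n - n1) ((M.fx u)^[k] q, R) ∧
        M.outs n (q, pow u k ++ R) = cat (M.fx u) (M.gw u) k q ++
          M.outs (n - n1) ((M.fx u)^[k] q, R)) ∨
      (∃ i Z v2 j w' w'', (M.run n (q, pow u k ++ R)).2 = Z ++ (v2 ++ (pow u j ++ R)) ∧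
        M.outs n (q, pow u k ++ R) = cat (M.fx u) (M.gw u) i q ++ (w' ++ w'') ∧
        Blk L1 C1 Z ∧ v2.length ≤ u.length ∧ w'.length ≤ C0 * u.length ∧ Blk L1 C1 w'') := by
  induction k with
  | zero =>
    intro q n R
    left
    exact ⟨0, Nat.zero_le _, by simp [pow], by simp [pow, cat]⟩
  | succ k ih =>
    intro q n R
    have e : pow u (k + 1) ++ R = u ++ (pow u k ++ R) := by rw [pow, List.append_assoc]
    rw [e]
    rcases M.either q u n with hs | hs
    · obtain ⟨hr1, hr2⟩ := M.read hs.1 (pow u k ++ R) n hs.2
      have hg : M.gw u q = M.outs (M.ft q u) (q, u) := if_pos hs.1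
      change M.run n (q, u ++ (pow u k ++ R)) =
        M.run (n - M.ft q u) (M.fx u q, pow u k ++ R) at hr1
      change M.outs n (q, u ++ (pow u k ++ R)) = M.outs (M.ft q u) (q, u) ++
        M.outs (n - M.ft q u) (M.fx u q, pow u k ++ R) at hr2
      rcases ih (M.fx u q) (n - M.ft q u) R with ⟨n1, h1, h2, h3⟩ | ⟨i, Z, v2, j, w', w'', h⟩
      · left
        refine ⟨M.ft q u + n1, by omega, ?_, ?_⟩
        · rw [hr1, h2, Function.iterate_succ_apply]
          congr 1
          omega
        · rw [hr2, h3, cat, hg, Function.iterate_succ_apply, List.append_assoc]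
          congr 3
          omega
      · right
        obtain ⟨h1, h2, h3⟩ := h
        refine ⟨i + 1, Z, v2, j, w', w'', ?_, ?_, h3⟩
        · rw [hr1, h1]
        · rw [hr2, h2, cat, hg, List.append_assoc]
    · right
      obtain ⟨Z, v2, w', w'', e1, e2, e3⟩ := M.partial_read hC0 hu u q n hs
      have h3 := M.run_local n q u (pow u k ++ R) (fun i hi => hs i hi.le)
      refine ⟨0, Z, v2, k, w', w'', ?_, ?_, e3⟩
      · rw [h3.1, e1, List.append_assoc]
      · rw [h3.2, e2]; rfl

/-- The key lemma: a free run from a stack which consists of `m` powers of short words. -/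
theorem Prog.key [Fintype Q] [Fintype Γ] :
    ∃ LS LO C2 : ℕ, 1 ≤ LS ∧ 1 ≤ LO ∧ ∀ (S : List Γ) (m : ℕ), Blk LS m S →
      ∀ (q : Q) (n : ℕ), ∃ m' j, Blk LS m' (M.run n (q, S)).2 ∧
        Blk LO (C2 * (j + 1)) (M.outs n (q, S)) ∧ m' + j ≤ m + C2 := by
  classical
  obtain ⟨C0, hC0⟩ := M.exists_ft_bound
  obtain ⟨L1, C1, hu⟩ := M.uni
  set LS := L1 + 1 with hLS
  set B := C0 * LS with hB
  set LO := Fintype.card Q * B + B + L1 + 1 with hLO
  set C2 := 2 * Fintype.card Q + C1 + 3 with hC2
  refine ⟨LS, LO, C2, by omega, by omega, fun S m hS => ?_⟩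
  induction hS with
  | nil m =>
    intro q n
    refine ⟨C1, 0, ((hu q none n).1).mono (by omega) le_rfl, ?_, by omega⟩
    exact ((hu q none n).2).mono (by omega) (by omega)
  | @cons m u k w hul hw ih =>
    intro q n
    have hgl : ∀ q, (M.gw u q).length ≤ B := fun q =>
      (M.gw_len hC0 u q).trans (Nat.mul_le_mul_left C0 hul)
    have hcat : ∀ i q, Blk LO (2 * Fintype.card Q + 1) (cat (M.fx u) (M.gw u) i q) := by
      intro i q
      refine (cat_blk (M.fx u) (M.gw u) B hgl i q).mono (by omega) le_rfl
    rcases M.power_read hC0 hu u k q n w with ⟨n1, h1, h2, h3⟩ | ⟨i, Z, v2, j, w', w'', h⟩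
    · obtain ⟨m', j, g1, g2, g3⟩ := ih ((M.fx u)^[k] q) (n - n1)
      refine ⟨m', j + 1, ?_, ?_, by omega⟩
      · rw [h2]; exact g1
      · rw [h3]
        refine ((hcat k q).append g2).mono le_rfl ?_
        have : C2 * (j + 1 + 1) = C2 + C2 * (j + 1) := by ring
        omega
    · obtain ⟨g1, g2, g3, g4, g5, g6⟩ := h
      refine ⟨C1 + (1 + (1 + m)), 0, ?_, ?_, by omega⟩
      · rw [g1]
        refine (g3.mono (by omega) le_rfl).append ?_
        refine (Blk.single (by omega)).append ?_
        exact (Blk.powr hul j).append hw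
      · rw [g2]
        have e1 : Blk LO 1 w' := Blk.single (g5.trans ((Nat.mul_le_mul_left C0 hul).trans (by omega)))
        have e2 : Blk LO C1 w'' := g6.mono (by omega) le_rfl
        refine ((hcat i q).append (e1.append e2)).mono le_rfl (by omega)

/-- A machine with one stack whose state may be changed from outside at the times `ev t`. -/
structure Traj (q : ℕ → Q) (S : ℕ → List Γ) (ev : ℕ → Prop) : Prop where
  start : S 0 = []
  stack : ∀ t, S (t + 1) = (M.ac (q t) (S t).head?).app (S t)
  state : ∀ t, ¬ ev t → q (t + 1) = M.nx (q t) (S t).head?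

/-- the word written in the first `T` steps -/
def written (q : ℕ → Q) (S : ℕ → List Γ) : ℕ → List ℕ
  | 0 => []
  | T + 1 => written q S T ++ (M.ot (q T) (S T).head?).toList

theorem Traj.free {q : ℕ → Q} {S : ℕ → List Γ} {ev : ℕ → Prop} (h : Traj M q S ev) (a n : ℕ)
    (hf : ∀ t, a ≤ t → t < a + n → ¬ ev t) :
    (q (a + n), S (a + n)) = M.run n (q a, S a) ∧
      written M q S (a + n) = written M q S a ++ M.outs n (q a, S a) := by
  induction n generalizing a with
  | zero => simp [Prog.run_zero, Prog.outs]
  | succ n ih =>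
    have h1 := ih (a + 1) (fun t ht1 ht2 => hf t (by omega) (by omega))
    have hs : M.step (q a, S a) = (q (a + 1), S (a + 1)) := by
      rw [Prog.step, h.stack a, h.state a (hf a le_rfl (by omega))]
    rw [show a + (n + 1) = a + 1 + n by ring]
    constructor
    · rw [Prog.run_succ, hs]; exact h1.1
    · rw [h1.2, Prog.outs, hs, written, List.append_assoc]

open Classical in
theorem Prog.main [Fintype Q] [Fintype Γ] :
    ∃ LO C3 : ℕ, ∀ (q : ℕ → Q) (S : ℕ → List Γ) (ev : ℕ → Prop), Traj M q S ev →
      ∀ T : ℕ, Blk LO (C3 * (((range T).filter ev).card + 1)) (written M q S T) := by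
  obtain ⟨LS, LO, C2, hLS, hLO, hkey⟩ := M.key
  set C3 := C2 + 4 with hC3
  refine ⟨LO, C3 * C3, fun q S ev h => ?_⟩
  have hmain : ∀ T : ℕ, ∃ m j, Blk LS m (S T) ∧ Blk LO (C3 * j) (written M q S T) ∧
      m + j ≤ C3 * (((range T).filter ev).card + 1) := by
    intro T
    induction T using Nat.strong_induction_on with
    | _ T ih =>
      by_cases hev : ∃ t, t < T ∧ ev t
      · -- the last event
        obtain ⟨e, he1, he2, he3⟩ : ∃ e, e < T ∧ ev e ∧ ∀ t, e < t → t < T → ¬ ev t := by
          have hne : ((range T).filter ev).Nonempty := by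
            obtain ⟨t, ht1, ht2⟩ := hev
            exact ⟨t, by rw [mem_filter, mem_range]; exact ⟨ht1, ht2⟩⟩
          refine ⟨((range T).filter ev).max' hne, ?_, ?_, ?_⟩
          · have := max'_mem _ hne
            rw [mem_filter, mem_range] at this
            exact this.1
          · have := max'_mem _ hne
            rw [mem_filter, mem_range] at this
            exact this.2
          · intro t ht1 ht2 ht3
            have := le_max' ((range T).filter ev) t (by
              rw [mem_filter, mem_range]; exact ⟨ht2, ht3⟩)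
            omega
        obtain ⟨m, j, h1, h2, h3⟩ := ih e he1
        have hS : Blk LS (m + 2) (S (e + 1)) := by
          rw [h.stack e]
          cases M.ac (q e) (S e).head? with
          | push g =>
            have := (Blk.single (L := LS) (u := [g]) (by simpa using hLS)).append h1
            exact this.mono le_rfl (by omega)
          | swap g =>
            have h4 := h1.tail
            cases hSe : S e with
            | nil => exact Blk.nil _
            | cons z R =>
              rw [hSe] at h4
              have := (Blk.single (L := LS) (u := [g]) (by simpa using hLS)).append h4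
              exact this.mono le_rfl (by omega)
          | pop => exact h1.tail.mono le_rfl (by omega)
          | stay => exact h1.mono le_rfl (by omega)
        have hw : Blk LO (C3 * j + 1) (written M q S (e + 1)) := by
          rw [written]
          refine h2.append (Blk.single ?_)
          cases M.ot (q e) (S e).head? <;> simp
          exact hLO
        have hfree := h.free M (e + 1) (T - (e + 1)) (fun t ht1 ht2 => he3 t (by omega) (by omega))
        rw [show e + 1 + (T - (e + 1)) = T by omega] at hfree
        obtain ⟨m', j', g1, g2, g3⟩ := hkey (S (e + 1)) (m + 2) hS (q (e + 1)) (T - (e + 1))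
        have hcard : ((range T).filter ev).card = ((range e).filter ev).card + 1 := by
          have : (range T).filter ev = insert e ((range e).filter ev) := by
            ext t
            rw [mem_insert, mem_filter, mem_filter, mem_range, mem_range]
            constructor
            · rintro ⟨h1, h2⟩
              rcases lt_trichotomy t e with h | h | h
              · exact Or.inr ⟨h, h2⟩
              · exact Or.inl h
              · exact absurd h2 (he3 t h h1)
            · rintro (rfl | ⟨h1, h2⟩)
              · exact ⟨he1, he2⟩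
              · exact ⟨by omega, h2⟩
          rw [this, card_insert_of_notMem]
          simp
        refine ⟨m', j + j' + 2, ?_, ?_, ?_⟩
        · have := congrArg Prod.snd hfree.1
          simp only at this
          rw [this]; exact g1
        · rw [hfree.2]
          refine (hw.append g2).mono le_rfl ?_
          have e1 : C3 * (j + j' + 2) = C3 * j + (C2 * (j' + 1) + 4 * (j' + 1) + C3) := by
            rw [hC3]; ring
          omega
        · rw [hcard]
          have e1 : C3 * (((range e).filter ev).card + 1 + 1) =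
            C3 * (((range e).filter ev).card + 1) + C3 := by ring
          omega
      · push Not at hev
        have hfree := h.free M 0 T (fun t _ ht2 => hev t (by omega))
        rw [Nat.zero_add] at hfree
        obtain ⟨m', j', g1, g2, g3⟩ := hkey [] 0 (Blk.nil _) (q 0) T
        rw [h.start] at hfree
        refine ⟨m', j' + 1, ?_, ?_, ?_⟩
        · have := congrArg Prod.snd hfree.1
          simp only at this
          rw [this]; exact g1
        · rw [hfree.2]
          have e0 : written M q S 0 = [] := rfl
          rw [e0, List.nil_append]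
          refine g2.mono le_rfl ?_
          exact Nat.mul_le_mul_right _ (by omega)
        · have : C3 * 1 ≤ C3 * (((range T).filter ev).card + 1) :=
            Nat.mul_le_mul_left _ (by omega)
          omega
  intro T
  obtain ⟨m, j, _, h2, h3⟩ := hmain T
  refine h2.mono le_rfl ?_
  rw [mul_assoc]
  exact Nat.mul_le_mul_left _ (by omega)

end Pool.Agent.W979.HS
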