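import Mathlib
import Pool.Agent.W979.HS.Read

set_option autoImplicit false

/-! From digit relations to accesses to the memory outside one stack. -/

namespace Pool.Agent.W979.HS

open Finset Filter

/-- the `k`-th digit after the point of `x` in base `b` -/
noncomputable def digit (b : ℕ) (x : ℝ) (k : ℕ) : ℤ := ⌊(b : ℝ) ^ k * x⌋ % b

theorem rel_sum (P : ℕ) (hP : 1 ≤ P) (a : ℕ → ℤ) (k : ℕ) :
    ∑ j ∈ range (P + 1), (if j = 0 then (1 : ℤ) else if j = P then -1 else 0) * a (k + j) =
      a k - a (k + P) := by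
  rw [sum_range_succ, sum_eq_single_of_mem 0 (mem_range.2 hP)]
  · have h0 : P ≠ 0 := by omega
    simp [h0, sub_eq_add_neg]
  · intro j hj hj0
    rw [mem_range] at hj
    rw [if_neg hj0, if_neg (by omega)]
    ring

/-- counting: a list which contains, from the place `s` on, the digits of `x` -/
theorem count_le (b : ℕ) (x : ℝ) (s P N : ℕ) (hP : 1 ≤ P) (w : List ℕ) (hN : N ≤ w.length)
    (hw : ∀ i d, w[s + i]? = some d → (d : ℤ) = digit b x (i + 1)) :
    ((Icc 1 N).filter (fun k : ℕ =>
      ∑ j ∈ range (P + 1), (if j = 0 then (1 : ℤ) else if j = P then -1 else 0) *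
        digit b x (k + j) ≠ 0)).card ≤ P + s + dfc P w := by
  have hsub : ((Icc 1 N).filter (fun k : ℕ =>
      ∑ j ∈ range (P + 1), (if j = 0 then (1 : ℤ) else if j = P then -1 else 0) *
        digit b x (k + j) ≠ 0)) ⊆
      Ioc (N - (P + s)) N ∪
        ((range w.length).filter (fun i => i + P < w.length ∧ w[i + P]? ≠ w[i]?)).image
          (fun i => i + 1 - s) := by
    intro k hk
    rw [mem_filter, mem_Icc, rel_sum P hP] at hk
    obtain ⟨⟨hk1, hk2⟩, hk3⟩ := hk
    rw [mem_union, mem_Ioc, mem_image]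
    rcases lt_or_ge (N - (P + s)) k with h | h
    · exact Or.inl ⟨h, hk2⟩
    · right
      refine ⟨s + (k - 1), ?_, by omega⟩
      rw [mem_filter, mem_range]
      have h1 : s + (k - 1) + P < w.length := by omega
      refine ⟨by omega, h1, ?_⟩
      intro heq
      apply hk3
      have e1 : w[s + (k - 1)]? = some w[s + (k - 1)] := List.getElem?_eq_getElem (by omega)
      have e2 : w[s + (k - 1 + P)]? = some w[s + (k - 1 + P)] :=
        List.getElem?_eq_getElem (by omega)
      have d1 := hw _ _ e1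
      have d2 := hw _ _ e2
      rw [Nat.add_assoc] at heq
      rw [heq, e1] at e2
      have e3 := Option.some.inj e2
      rw [show k - 1 + 1 = k by omega] at d1
      rw [show k - 1 + P + 1 = k + P by omega] at d2
      rw [← d1, ← d2, ← e3]
      ring
  refine (card_le_card hsub).trans ((card_union_le _ _).trans ?_)
  refine Nat.add_le_add ?_ (card_image_le.trans le_rfl)
  rw [Nat.card_Ioc]
  omega

theorem dvd_fact (L : ℕ) : ∀ d, 1 ≤ d → d ≤ L → d ∣ L.factorial :=
  fun _ h1 h2 => Nat.dvd_factorial h1 h2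

theorem absorb (f : ℕ → ℝ) (hf : Tendsto f atTop atTop) (c A : ℝ) (hc : 0 < c) (hA : 0 < A)
    (N0 : ℕ) : ∃ c' : ℝ, 0 < c' ∧ ∃ N1 : ℕ, N0 ≤ N1 ∧ ∀ N, N1 ≤ N → ∀ E : ℝ,
      c * f N ≤ A * (E + 1) → c' * f N ≤ E := by
  obtain ⟨N2, hN2⟩ := (tendsto_atTop.1 hf (2 * A / c)).exists_forall_of_atTop
  refine ⟨c / (2 * A), by positivity, max N0 N2, le_max_left _ _, fun N hN E h => ?_⟩
  have h1 := hN2 N ((le_max_right _ _).trans hN)
  have h2 : 2 * A ≤ c * f N := by
    rw [div_le_iff₀ hc] at h1
    linarith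
  have h3 : c / (2 * A) * f N = (c * f N) / (2 * A) := by ring
  rw [h3, div_le_iff₀ (by positivity)]
  nlinarith

theorem tend (a e : ℕ) (ha : 2 ≤ a) :
    Tendsto (fun N : ℕ => (Real.log N) ^ a / (Real.log (Real.log N)) ^ e) atTop atTop := by
  have h1 : Tendsto (fun N : ℕ => Real.log (N : ℝ)) atTop atTop :=
    Real.tendsto_log_atTop.comp tendsto_natCast_atTop_atTop
  have h2 : Tendsto (fun y : ℝ => y ^ a / (Real.log y) ^ e) atTop atTop := by
    have h3 := (Real.isLittleO_pow_log_id_atTop (n := e)).bound (c := 1) one_pos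
    apply tendsto_atTop_mono' atTop _ tendsto_id
    filter_upwards [h3, eventually_gt_atTop (1 : ℝ)] with y hy hy1
    have hl : 0 < Real.log y := Real.log_pos hy1
    have hle : (Real.log y) ^ e ≤ y := by
      rw [Real.norm_of_nonneg (by positivity), one_mul, id, Real.norm_of_nonneg (by linarith)] at hy
      exact hy
    rw [id, le_div_iff₀ (by positivity)]
    calc y * (Real.log y) ^ e ≤ y * y := by
          apply mul_le_mul_of_nonneg_left hle (by linarith)
      _ = y ^ 2 := by ring
      _ ≤ y ^ a := pow_le_pow_right₀ hy1.le ha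
  exact h2.comp h1

open Classical in
/-- one stack, arbitrary interventions from outside -/
theorem access (b : ℕ) (x : ℝ) (f : ℕ → ℝ) (hf : Tendsto f atTop atTop)
    (hrel : ∀ P : ℕ, 1 ≤ P → ∃ c : ℝ, 0 < c ∧ ∃ N0 : ℕ, ∀ N : ℕ, N0 ≤ N →
      c * f N ≤ (((Icc 1 N).filter (fun k : ℕ =>
        ∑ j ∈ range (P + 1), (if j = 0 then (1 : ℤ) else if j = P then -1 else 0) *
          digit b x (k + j) ≠ 0)).card : ℝ))
    {Q Γ : Type} [Fintype Q] [Fintype Γ] (M : Prog Q Γ) (s : ℕ) :
    ∃ c : ℝ, 0 < c ∧ ∃ N0 : ℕ, ∀ (q : ℕ → Q) (S : ℕ → List Γ) (ev : ℕ → Prop),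
      Traj M q S ev →
      (∀ T i d, (written M q S T)[s + i]? = some d → (d : ℤ) = digit b x (i + 1)) →
      ∀ N T : ℕ, N0 ≤ N → N ≤ (written M q S T).length →
        c * f N ≤ (((range T).filter ev).card : ℝ) := by
  obtain ⟨LO, C3, hmain⟩ := M.main
  set P := LO.factorial with hPdef
  have hP : 1 ≤ P := Nat.one_le_iff_ne_zero.2 (Nat.factorial_ne_zero _)
  obtain ⟨c, hc, N0, hN0⟩ := hrel P hP
  obtain ⟨c', hc', N1, hN1, habs⟩ := absorb f hf c ((P : ℝ) + s + C3 * P) hc (by positivity) N0
  refine ⟨c', hc', N1, fun q S ev htr hw N T hN hlen => ?_⟩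
  refine habs N hN _ ((hN0 N (hN1.trans hN)).trans ?_)
  have h1 := count_le b x s P N hP _ hlen (hw T)
  have h2 := (hmain q S ev htr T).dfc_le (dvd_fact LO)
  set E := ((range T).filter ev).card
  have h3 : P + s + dfc P (written M q S T) ≤ P + s + C3 * (E + 1) * P := by
    rw [hPdef]
    omega
  have h4 : ((P + s + C3 * (E + 1) * P : ℕ) : ℝ) ≤ ((P : ℝ) + s + C3 * P) * (E + 1) := by
    push_cast
    have hE : (0 : ℝ) ≤ E := Nat.cast_nonneg _
    have hPs : (0 : ℝ) ≤ (P : ℝ) + s := by positivity
    nlinarith [mul_nonneg hPs hE]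
  exact (Nat.cast_le.2 (h1.trans h3)).trans h4

/-- A deterministic machine with finitely many stacks. In one step it reads its state and the top
symbols of all stacks, takes a new state, performs one action (push a symbol, replace the top
symbol, pop, nothing) on each stack and may write a symbol. -/
structure StackMachine where
  /-- states -/
  Q : Type
  /-- names of the stacks -/
  ι : Type
  /-- stack symbols -/
  Γ : Type
  finQ : Fintype Q
  decι : DecidableEq ι
  finι : Fintype ι
  finΓ : Fintype Γ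
  /-- the initial state -/
  start : Q
  /-- the new state -/
  nx : Q → (ι → Option Γ) → Q
  /-- the action on the stack `k` -/
  ac : Q → (ι → Option Γ) → ι → Act Γ
  /-- the symbol which is written, if any -/
  ot : Q → (ι → Option Γ) → Option ℕ

attribute [instance] StackMachine.finQ StackMachine.decι StackMachine.finι StackMachine.finΓ

namespace StackMachine

variable (M : StackMachine)

/-- the top symbols of the stacks -/
def tops (c : M.Q × (M.ι → List M.Γ)) : M.ι → Option M.Γ := fun k => (c.2 k).head?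

/-- one step of the machine -/
def step (c : M.Q × (M.ι → List M.Γ)) : M.Q × (M.ι → List M.Γ) :=
  (M.nx c.1 (M.tops c), fun k => (M.ac c.1 (M.tops c) k).app (c.2 k))

/-- the configuration after `t` steps; all stacks are empty in the beginning -/
def conf (t : ℕ) : M.Q × (M.ι → List M.Γ) := M.step^[t] (M.start, fun _ => [])

/-- the word written in the first `T` steps -/
def output : ℕ → List ℕ
  | 0 => []
  | T + 1 => output T ++ (M.ot (M.conf T).1 (M.tops (M.conf T))).toList

/-- in the step number `t` some nonempty stack other than `k₀` is popped -/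
def PopOutside (k₀ : M.ι) (t : ℕ) : Prop :=
  ∃ k, k ≠ k₀ ∧ (M.conf t).2 k ≠ [] ∧ M.ac (M.conf t).1 (M.tops (M.conf t)) k = Act.pop

theorem conf_succ (t : ℕ) : M.conf (t + 1) = M.step (M.conf t) := by
  simp only [conf, Function.iterate_succ_apply']

/-- the program which keeps the tops of the other stacks in its state -/
def prog (k₀ : M.ι) : Prog (M.Q × (M.ι → Option M.Γ)) M.Γ :=
  { nx := fun q o => (M.nx q.1 (Function.update q.2 k₀ o), fun k =>
      if k = k₀ then none else
        match M.ac q.1 (Function.update q.2 k₀ o) k with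
        | Act.push g => some g
        | Act.swap g => (q.2 k).map (fun _ => g)
        | Act.stay => q.2 k
        | Act.pop => none)
    ac := fun q o => M.ac q.1 (Function.update q.2 k₀ o) k₀
    ot := fun q o => M.ot q.1 (Function.update q.2 k₀ o) }

/-- the state together with the tops of the other stacks -/
def st (k₀ : M.ι) (t : ℕ) : M.Q × (M.ι → Option M.Γ) :=
  ((M.conf t).1, fun k => if k = k₀ then none else ((M.conf t).2 k).head?)

theorem upd (k₀ : M.ι) (t : ℕ) :
    Function.update (M.st k₀ t).2 k₀ ((M.conf t).2 k₀).head? = M.tops (M.conf t) := by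
  funext k
  rcases eq_or_ne k k₀ with h | h
  · subst h
    simp [tops]
  · rw [Function.update_of_ne h]
    simp [st, h, tops]

theorem traj (k₀ : M.ι) : Traj (M.prog k₀) (M.st k₀) (fun t => (M.conf t).2 k₀)
    (M.PopOutside k₀) where
  start := rfl
  stack := by
    intro t
    show (M.conf (t + 1)).2 k₀ = (M.ac (M.st k₀ t).1 _ k₀).app ((M.conf t).2 k₀)
    rw [M.upd k₀ t, M.conf_succ]
    rfl
  state := by
    intro t ht
    show M.st k₀ (t + 1) = (M.prog k₀).nx (M.st k₀ t) ((M.conf t).2 k₀).head?
    unfold prog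
    simp only
    rw [M.upd k₀ t]
    rw [Prod.ext_iff]
    constructor
    · show (M.conf (t + 1)).1 = _
      rw [M.conf_succ]
      rfl
    · funext k
      show (if k = k₀ then none else ((M.conf (t + 1)).2 k).head?) = _
      rcases eq_or_ne k k₀ with h | h
      · simp [h]
      · rw [if_neg h]
        simp only [if_neg h]
        rw [M.conf_succ]
        show ((M.ac (M.conf t).1 (M.tops (M.conf t)) k).app ((M.conf t).2 k)).head? = _
        have hst : (M.st k₀ t).1 = (M.conf t).1 := rfl
        rw [hst]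
        cases hact : M.ac (M.conf t).1 (M.tops (M.conf t)) k with
        | push g => rfl
        | swap g =>
          simp only [st, h, if_false]
          cases (M.conf t).2 k <;> rfl
        | stay => simp [Act.app, st, h]
        | pop =>
          have h0 : (M.conf t).2 k = [] := by
            by_contra h0
            exact ht ⟨k, h, h0, hact⟩
          rw [h0]
          rfl

theorem written_eq (k₀ : M.ι) (T : ℕ) :
    written (M.prog k₀) (M.st k₀) (fun t => (M.conf t).2 k₀) T = M.output T := by
  induction T with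
  | zero => rfl
  | succ T ih =>
    rw [written, output, ih]
    congr 2
    show M.ot (M.st k₀ T).1 _ = _
    rw [M.upd k₀ T]
    rfl

end StackMachine

open Classical in
theorem machine_access (b : ℕ) (x : ℝ) (f : ℕ → ℝ) (hf : Tendsto f atTop atTop)
    (hrel : ∀ P : ℕ, 1 ≤ P → ∃ c : ℝ, 0 < c ∧ ∃ N0 : ℕ, ∀ N : ℕ, N0 ≤ N →
      c * f N ≤ (((Icc 1 N).filter (fun k : ℕ =>
        ∑ j ∈ range (P + 1), (if j = 0 then (1 : ℤ) else if j = P then -1 else 0) *
          digit b x (k + j) ≠ 0)).card : ℝ))
    (M : StackMachine) (k₀ : M.ι) (s : ℕ)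
    (hw : ∀ T i d, (M.output T)[s + i]? = some d → (d : ℤ) = digit b x (i + 1)) :
    ∃ c : ℝ, 0 < c ∧ ∃ N0 : ℕ, ∀ N T : ℕ, N0 ≤ N → N ≤ (M.output T).length →
      c * f N ≤ (((range T).filter (M.PopOutside k₀)).card : ℝ) := by
  obtain ⟨c, hc, N0, h⟩ := access b x f hf hrel (M.prog k₀) s
  refine ⟨c, hc, N0, fun N T hN hlen => ?_⟩
  refine h (M.st k₀) (fun t => (M.conf t).2 k₀) (M.PopOutside k₀) (M.traj k₀) ?_ N T hN ?_
  · intro T i d hd
    rw [M.written_eq k₀ T] at hd
    exact hw T i d hd
  · rw [M.written_eq k₀ T]; exact hlen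

end Pool.Agent.W979.HS
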